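import Pool.Agent.Helper57.EV2.GPEval

/-!
# EV2, R8: the formula for the positive diagram
-/

set_option autoImplicit false

namespace Pool.Agent.Helper2.EV2

open Polynomial Pool.Agent.Helper85.Exp Pool.Agent.Helper60.EV2 Pool.Agent.Helper27.EV2

/-- The statuses of the positive diagram. -/
theorem stat_allPos {W : Word} (hW : Ok W) : stat (allPos (shadow W hW)) = ps := by
  funext r i
  unfold stat ps allPos
  split_ifs <;> rfl

/-- R8, from R7 and R5. -/
theorem form_pos_of {W : Word} (hW : Ok W) {nab : Dg (shadow W hW) → ℤ[X]} {s : ℂ} (hs : s ≠ 0)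
    (form : aeval (s⁻¹ - s) (nab (allPos _)) =
      s ^ (w0 W - wr (allPos (shadow W hW))) * (1 - Qm W (s ^ 2) (s⁻¹ ^ 2) (stat (allPos (shadow W hW)))).det)
    (hw : wr (allPos (shadow W hW)) = crossings W) :
    aeval (s ^ 2) (GP W) = s ^ ((crossings W : ℤ) - w0 W) * aeval (s⁻¹ - s) (nab (allPos _)) := by
  rw [form, hw, stat_allPos, Pool.Agent.Helper57.EV2.GP_eval, ← mul_assoc, ← zpow_add₀ hs]
  have h0 : ((crossings W : ℤ) - w0 W) + (w0 W - (crossings W : ℤ)) = 0 := by ring
  rw [h0, zpow_zero, one_mul]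
  unfold GG
  rw [inv_pow]

end Pool.Agent.Helper2.EV2
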